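import Pool.Agent.L0h23.AW.Lin
import Pool.Agent.L0h75.H1.Stm
import Pool.Agent.L0h23.ED.Rr
import Pool.Agent.L0h61.EV.T2

/-!
# H1: the classes `1` modulo `8`
-/

set_option autoImplicit false
set_option linter.unusedSectionVars false

namespace Pool.Agent.L0h26.H1

open Pool.Agent.Y698 Pool.Agent.Y698.SG Pool.Agent.L0h4.TW
open Pool.Agent.L0h23.ED (kn kl kb k7 S_R2 C5 C5.mul C5.prod r8 r8_aR dvd_a3 c5_pfx lam lab)
open Pool.Agent.L0h75.H1
open Pool.Agent.W192.HK (sp)
open Pool.Agent.L0h61.EV (sum_lam u8)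
open Pool.Agent.L0h23.AW (two0 lin1)

section
variable {Q P : Finset ℕ} {ϖ : ℕ → RR}

lemma prod_ix {M : Type*} [CommMonoid M] (hd : Disjoint Q P) (f : ℕ × Bool → M) :
    ∏ i ∈ ix Q P, f i = (∏ q ∈ Q, f (q, false)) * ∏ p ∈ P, (f (p, false) * f (p, true)) := by
  have hd' : Disjoint ((Q ∪ P) ×ˢ ({false} : Finset Bool)) (P ×ˢ ({true} : Finset Bool)) := by
    rw [Finset.disjoint_left]
    intro i hi hj
    rw [Finset.mem_product, Finset.mem_singleton] at hi hj
    rw [hi.2] at hj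
    exact absurd hj.2 (by simp)
  unfold ix
  rw [Finset.prod_union hd', Finset.prod_product, Finset.prod_product]
  simp only [Finset.prod_singleton]
  rw [Finset.prod_union hd, Finset.prod_mul_distrib, mul_assoc]

lemma pfx_Q {q : ℕ} (hq : q ∈ Q) (b : Bool) : pfx Q ϖ (q, b) = sg q * (q : RR) := if_pos hq

lemma pfx_f (h : Dt Q P ϖ) {p : ℕ} (hp : p ∈ P) : pfx Q ϖ (p, false) = ϖ p := by
  unfold pfx
  rw [if_neg (fun h1 => h.disj h1 hp)]
  rfl

lemma pfx_t (h : Dt Q P ϖ) {p : ℕ} (hp : p ∈ P) : pfx Q ϖ (p, true) = sg p * cj (ϖ p) := by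
  unfold pfx
  rw [if_neg (fun h1 => h.disj h1 hp)]
  rfl

lemma sgz_prod {S : Finset ℕ} (hS : ∀ q ∈ S, q % 2 = 1) :
    ((∏ q ∈ S, sgz q = 1 ∧ (∏ q ∈ S, q) % 4 = 1) ∨ (∏ q ∈ S, sgz q = -1 ∧ (∏ q ∈ S, q) % 4 = 3)) := by
  classical
  induction S using Finset.induction_on with
  | empty => left; simp
  | insert q S hq ih =>
    have ih' := ih fun p hp => hS p (Finset.mem_insert_of_mem hp)
    have h1 := hS q (Finset.mem_insert_self _ _)
    rw [Finset.prod_insert hq, Finset.prod_insert hq]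
    have h2 : (sgz q = 1 ∧ q % 4 = 1) ∨ (sgz q = -1 ∧ q % 4 = 3) := by
      unfold sgz
      split_ifs with h3
      · left; exact ⟨rfl, h3⟩
      · right; exact ⟨rfl, by omega⟩
    rcases h2 with h2 | h2 <;> rcases ih' with h3 | h3
    · left; rw [h2.1, h3.1, Nat.mul_mod, h2.2, h3.2]; norm_num
    · right; rw [h2.1, h3.1, Nat.mul_mod, h2.2, h3.2]; norm_num
    · right; rw [h2.1, h3.1, Nat.mul_mod, h2.2, h3.2]; norm_num
    · left; rw [h2.1, h3.1, Nat.mul_mod, h2.2, h3.2]; norm_num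

/-- the product of the prime elements -/
theorem prod_pfx (h : Dt Q P ϖ) (h4 : (∏ q ∈ Q ∪ P, q) % 4 = 1) :
    ∏ i ∈ ix Q P, pfx Q ϖ i = ((∏ q ∈ Q ∪ P, q : ℕ) : RR) := by
  have h1 : ∏ q ∈ Q ∪ P, sgz q = 1 := by
    rcases sgz_prod (S := Q ∪ P) (fun q hq => by
      rcases Finset.mem_union.1 hq with h2 | h2
      · exact (h.q q h2).odd
      · exact (h.p q h2).odd) with h2 | h2
    · exact h2.1
    · exfalso
      have := h2.2
      omega
  rw [prod_ix h.dis]
  have e1 : ∏ q ∈ Q, pfx Q ϖ (q, false) = ∏ q ∈ Q, (((sgz q : ℤ) : RR) * (q : RR)) :=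
    Finset.prod_congr rfl fun q hq => by rw [pfx_Q hq, sg_coe]
  have e2 : ∏ p ∈ P, (pfx Q ϖ (p, false) * pfx Q ϖ (p, true)) =
      ∏ p ∈ P, (((sgz p : ℤ) : RR) * (p : RR)) := by
    refine Finset.prod_congr rfl fun p hp => ?_
    rw [pfx_f h hp, pfx_t h hp, sg_coe]
    have h3 := mul_cj (ϖ p)
    rw [(h.cho p hp).1] at h3
    push_cast at h3
    linear_combination ((sgz p : ℤ) : RR) * h3
  rw [e1, e2, ← Finset.prod_union h.dis, Finset.prod_mul_distrib]
  have e3 : ∏ i ∈ Q ∪ P, ((sgz i : ℤ) : RR) = ((∏ q ∈ Q ∪ P, sgz q : ℤ) : RR) := by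
    push_cast
    rfl
  rw [e3, h1]
  push_cast
  ring

end

variable {Q S : Finset ℕ} {ϖ : ℕ → RR}

lemma sum_ind {T I : Finset (ℕ × Bool)} (hT : T ⊆ I) (f : ℕ × Bool → ZMod 2) :
    ∑ i ∈ I, f i * (if i ∈ T then 1 else 0) = ∑ i ∈ T, f i := by
  classical
  have e1 : T = I.filter (fun i => i ∈ T) := by
    ext i
    rw [Finset.mem_filter]
    exact ⟨fun h => ⟨hT h, h⟩, fun h => h.2⟩
  conv_rhs => rw [e1, Finset.sum_filter]
  refine Finset.sum_congr rfl fun i _ => ?_
  split_ifs <;> simp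

/-- the residue class of a class modulo `𝔭³` -/
lemma c5_g (h : Dt Q S ϖ) {T : Finset (ℕ × Bool)} (hT : T ⊆ ix Q S) (s e y z : Bool) :
    ∃ (c : ZMod 8) (l : ZMod 2), C5 c l ∧
      r8 (gg s e y z * ∏ i ∈ T, pfx Q ϖ i) = (if s then -1 else 1) * (if y then 6 else 1) * c := by
  refine ⟨r8 (if e then -fR else 1) * r8 (if z then aR - 1 else 1) * r8 (∏ i ∈ T, pfx Q ϖ i),
    b2 e + b2 z + ∑ i ∈ T, kl (pfx Q ϖ) i, ?_, ?_⟩
  · refine C5.mul (C5.mul ?_ ?_) (C5.prod T fun i hi => c5_pfx h (hT hi))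
    · cases e
      · simp only [Bool.false_eq_true, if_false, map_one]
        decide
      · have e1 : r8 (-fR) = 5 := by
          unfold fR
          rw [map_neg, map_sub, map_mul, r8_aR, map_ofNat, map_one]
          decide
        simp only [if_true, e1]
        decide
    · cases z
      · simp only [Bool.false_eq_true, if_false, map_one]
        decide
      · have e1 : r8 (aR - 1) = 5 := by
          rw [map_sub, r8_aR, map_one]
          decide
        simp only [if_true, e1]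
        decide
  · unfold gg
    rw [map_mul, map_mul, map_mul, map_mul]
    cases s <;> cases y <;> simp [r8_aR] <;> ring

/-- a square at the strict place -/
lemma lsq_r8 {x : RR} (h : Lsq aR x) : r8 x = 1 ∨ r8 x = 4 := by
  obtain ⟨y, h1, h2⟩ := h
  rw [dvd_a3, map_sub, map_one, sub_eq_zero] at h2
  rcases h1 with rfl | rfl
  · exact Or.inl h2
  · right
    rw [map_mul, map_pow, r8_aR, h2]
    decide

lemma ar1 : ∀ (s y : Bool) (c : ZMod 8) (l : ZMod 2), C5 c l →
    ((if s then -1 else 1) * (if y then 6 else 1) * c = 1 ∨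
      (if s then -1 else 1) * (if y then 6 else 1) * c = 4 ∨
      (if s then -1 else 1) * (if y then 6 else 1) * c * 5 = 1 ∨
      (if s then -1 else 1) * (if y then 6 else 1) * c * 5 = 4) → s = false ∧ y = false := by
  intro s y c l hc
  unfold C5 at hc
  rcases hc with ⟨rfl, rfl⟩ | ⟨rfl, rfl⟩ <;> revert s y <;> decide

/-- the symbols of `-√-7` -/
lemma e7_k7 (h : Dt Q S ϖ) {i : ℕ × Bool} (hi : i ∈ ix Q S) :
    mc (pfx Q ϖ) i = k7 (pfx Q ϖ) i + kn (pfx Q ϖ) i := by
  have h1 := h.rec7 i (Finset.mem_insert_of_mem hi) (7, false) (Finset.mem_insert_self _ _)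
    (fun h2 => h.ix7 (h2 ▸ hi))
  unfold mm at h1
  rw [pf7_o, h.pf hi, sy_seven] at h1
  have h2 : nt (-fR) = 1 := by
    unfold nt
    rw [sy_seven, e7_neg]
    have : e7 1 = 1 := by
      unfold e7
      rw [map_one, map_one]
      norm_num
    rw [this, lg_neg_one]
  rw [h2, mul_one] at h1
  show lg (e7 (pfx Q ϖ i)) = lg (sy (pfx Q ϖ i) (-fR)) + nt (pfx Q ϖ i)
  linear_combination h1 - (lg (sy (pfx Q ϖ i) (-fR))) * two0

/-- the nonsingular matrix -/
lemma ns_ker {ι : Type} [DecidableEq ι] {c : ι → ZMod 2} {r : ι → ι → ZMod 2} {I : Finset ι}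
    (h : gd c r I ≠ 0) {v : ι → ZMod 2}
    (hv : ∀ j ∈ I, ∑ i ∈ I.erase j, r i j * v i + v j * (c j + ∑ i ∈ I.erase j, r j i) = 0) :
    ∀ i ∈ I, v i = 0 := by
  by_contra hne
  push Not at hne
  obtain ⟨k, hk, hk0⟩ := hne
  apply h
  rw [gd_gm, ← Matrix.det_transpose]
  refine Matrix.exists_mulVec_eq_zero_iff.1 ⟨fun j : I => v j, ?_, ?_⟩
  · intro h0
    exact hk0 (congrFun h0 ⟨k, hk⟩)
  · funext j
    have h1 : ((gm c r I).transpose).mulVec (fun j => v j) j =
      ∑ i : I, (if i = j then c i + ∑ k ∈ I.erase i, r i k else r i j) * v i := rfl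
    have h2 : ∑ i : I, (if i = j then c i + ∑ k ∈ I.erase i, r i k else r i j) * v i =
        ∑ i ∈ I, (if i = (j : ι) then c i + ∑ k ∈ I.erase i, r i k else r i j) * v i := by
      rw [← Finset.sum_coe_sort I (fun i => (if i = (j : ι) then c i + ∑ k ∈ I.erase i, r i k
        else r i j) * v i)]
      refine Finset.sum_congr rfl fun i _ => ?_
      by_cases h : i = j
      · rw [if_pos h, if_pos (congrArg Subtype.val h)]
      · rw [if_neg h, if_neg (fun h' => h (Subtype.ext h'))]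
    have h3 : ∑ i ∈ I.erase j, (if i = (j : ι) then c i + ∑ k ∈ I.erase i, r i k else r i j) * v i
        = ∑ i ∈ I.erase j, r i j * v i :=
      Finset.sum_congr rfl fun i hi => by rw [if_neg (Finset.ne_of_mem_erase hi)]
    rw [h1, h2, ← Finset.add_sum_erase I _ j.2, if_pos rfl, h3]
    have h4 := hv j j.2
    show _ = (0 : ZMod 2)
    linear_combination h4

lemma sy_one' {π : RR} (h : Prime π) : sy π 1 = 1 := by
  have h1 := sy_mul' h 1 1
  rw [mul_one] at h1
  have hn : (1 : RR) ∉ sp π := by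
    intro h2
    rw [Ideal.mem_span_singleton] at h2
    exact h.not_isUnit (isUnit_of_dvd_one h2)
  rcases sy_sgn hn with h2 | h2
  · exact h2
  · rw [h2] at h1
    norm_num at h1

theorem t_A1 : Pool.Agent.L0h75.H1.S_A1 := by
  classical
  intro r2 hFAC hEQJ hEQ7 _ Q S ϖ h hD hns δ hsel
  set D := ∏ p ∈ Q ∪ S, p with hDd
  have hprod : ∏ i ∈ ix Q S, pfx Q ϖ i = (D : RR) := prod_pfx h (by rw [← hDd]; omega)
  have hK : Kap (1 : RR) 0 := Or.inl ⟨rfl, Or.inl rfl⟩
  have hm : -fR * (D : RR) = mK Q S ϖ 1 := by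
    unfold mK
    rw [hprod, one_mul]
  have hmg : mK Q S ϖ 1 = gg false true false false * ∏ i ∈ ix Q S, pfx Q ϖ i := by
    unfold mK gg
    simp
  rw [hm] at hsel ⊢
  obtain ⟨s, e, y, z, T, hT, hδ⟩ := hFAC Q S ϖ h 1 δ 0 hK hsel.odd
  have hodd := hsel.odd
  rw [hδ] at hodd
  have hJ := hEQJ r2 Q S ϖ h 1 0 hK s e y z T hT hodd
  have h7 := hEQ7 Q S ϖ h 1 0 hK s e y z T hT hodd
  -- the place `aR`
  have hsy : s = false ∧ y = false := by
    obtain ⟨c, l, hc, hr⟩ := c5_g h hT s e y z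
    rw [← hδ] at hr
    have hrm : r8 (mK Q S ϖ 1) = 5 := by
      rw [← hm, map_mul]
      have e1 : r8 (-fR) = 5 := by
        unfold fR
        rw [map_neg, map_sub, map_mul, r8_aR, map_ofNat, map_one]
        decide
      have e2 : r8 (D : RR) = 1 := by
        rw [map_natCast, ← ZMod.natCast_mod, hD]
        rfl
      rw [e1, e2, mul_one]
    refine ar1 s y c l hc ?_
    rw [← hr]
    rcases hsel.st with h1 | h1
    · rcases lsq_r8 h1 with h2 | h2
      · exact Or.inl h2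
      · exact Or.inr (Or.inl h2)
    · have h2 := lsq_r8 h1
      rw [map_mul, hrm] at h2
      exact Or.inr (Or.inr h2)
  obtain ⟨rfl, rfl⟩ := hsy
  -- the sums
  have hn : ∑ i ∈ ix Q S, kn (pfx Q ϖ) i = 0 := by
    have h2 := h.ntsum
    rw [Finset.sum_congr rfl fun i hi => by rw [h.pf hi]] at h2
    exact h2
  have hw : ∑ i ∈ ix Q S, kb (pfx Q ϖ) i = 0 := by
    have h2 := (sum_lam h).2
    rw [← hDd] at h2
    have h3 : ∑ i ∈ ix Q S, kb (pfx Q ϖ) i = u8 D := h2
    rw [h3]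
    unfold u8
    rw [if_pos (Or.inl hD)]
  have hb : b2 false = 0 := rfl
  have key := lin1 (I := ix Q S) (n := kn (pfx Q ϖ)) (lb := kb (pfx Q ϖ))
    (m7 := k7 (pfx Q ϖ)) (p := fun i => k7 (pfx Q ϖ) i + kn (pfx Q ϖ) i)
    (m := mr (pfx Q ϖ)) hn (fun i _ => rfl) (Pool.Agent.L0h61.EV.Dt.recp h) hw
    (z := b2 z) (e := b2 e) (x := fun i => if i ∈ T then 1 else 0) (fun j hj => ?_) ?_
  · obtain ⟨k1, k2⟩ := key
    have hz : z = false := by
      cases z
      · rfl
      · exact absurd k1 (by decide)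
    have k3 : ∀ i ∈ ix Q S, (if i ∈ T then 1 else 0) + b2 e = 0 := by
      refine ns_ker hns (v := fun i => (if i ∈ T then 1 else 0) + b2 e) fun j hj => ?_
      rw [e7_k7 h hj]
      exact k2 j hj
    rw [hδ, hmg, hz]
    cases e
    · left
      have hT0 : T = ∅ := by
        rw [Finset.eq_empty_iff_forall_notMem]
        intro i hi
        have h5 := k3 i (hT hi)
        rw [hb, add_zero, if_pos hi] at h5
        exact absurd h5 (by decide)
      rw [hT0]
      unfold gg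
      simp
    · right
      have hb1 : b2 true = 1 := rfl
      have hT1 : T = ix Q S := by
        refine Finset.Subset.antisymm hT fun i hi => ?_
        by_contra hc
        have h5 := k3 i hi
        rw [hb1, if_neg hc] at h5
        exact absurd h5 (by decide)
      rw [hT1]
  · -- the equations at the odd places
    have h5 := hJ j hj
    rw [sy_one' (h.fx.pd j hj).pr, lg_one, hb] at h5
    linear_combination h5
  · -- the equation at `√-7`
    rw [hb] at h7
    have h6 := sum_ind hT (fun i => k7 (pfx Q ϖ) i + kn (pfx Q ϖ) i)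
    linear_combination h7 + h6

theorem t_SUM : Pool.Agent.L0h75.H1.S_SUM := by
  classical
  intro Q S ϖ h a x
  have hn : ∑ i ∈ ix Q S, kn (pfx Q ϖ) i = 0 := by
    have h2 := h.ntsum
    rw [Finset.sum_congr rfl fun i hi => by rw [h.pf hi]] at h2
    exact h2
  have hd := Pool.Agent.L0h23.AW.dsum hn (Pool.Agent.L0h61.EV.Dt.recp h) x
  have h1 : ∀ j ∈ ix Q S, (∑ i ∈ (ix Q S).erase j, mr (pfx Q ϖ) i j * x i +
      x j * (a j + ∑ i ∈ (ix Q S).erase j, mr (pfx Q ϖ) i j)) =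
      x j * a j + (∑ i ∈ (ix Q S).erase j, mr (pfx Q ϖ) i j * x i +
      x j * ∑ i ∈ (ix Q S).erase j, mr (pfx Q ϖ) i j) := fun j _ => by ring
  rw [Finset.sum_congr rfl h1, Finset.sum_add_distrib, Finset.sum_add_distrib (f := fun j =>
      ∑ i ∈ (ix Q S).erase j, mr (pfx Q ϖ) i j * x i), hd, ← Finset.sum_add_distrib]
  exact Finset.sum_congr rfl fun j _ => by ring

end Pool.Agent.L0h26.H1
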