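import Pool.Agent.L0h26.H1.A1

/-!
# H1: the class `3` modulo `4`
-/

set_option autoImplicit false
set_option linter.unusedSectionVars false

namespace Pool.Agent.L0h26.H1

open Pool.Agent.Y698 Pool.Agent.Y698.SG Pool.Agent.L0h4.TW
open Pool.Agent.L0h23.ED (kn kl kb k7 NS3 S_R2 C5 C5.mul C5.prod r8 r8_aR dvd_a3 c5_pfx lam lab)
open Pool.Agent.L0h75.H1
open Pool.Agent.W192.HK (sp)
open Pool.Agent.L0h61.EV (sum_lam u8)
open Pool.Agent.L0h23.AW (two0 lin3)

section
variable {Q P : Finset ℕ} {ϖ : ℕ → RR}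

/-- the product of the prime elements, the class `3` -/
theorem prod_pfx3 (h : Dt Q P ϖ) (h4 : (∏ q ∈ Q ∪ P, q) % 4 = 3) :
    -1 * ∏ i ∈ ix Q P, pfx Q ϖ i = ((∏ q ∈ Q ∪ P, q : ℕ) : RR) := by
  have h1 : ∏ q ∈ Q ∪ P, sgz q = -1 := by
    rcases sgz_prod (S := Q ∪ P) (fun q hq => by
      rcases Finset.mem_union.1 hq with h2 | h2
      · exact (h.q q h2).odd
      · exact (h.p q h2).odd) with h2 | h2
    · exfalso
      have := h2.2
      omega
    · exact h2.1
  rw [prod_ix h.dis]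
  have e1 : ∏ q ∈ Q, pfx Q ϖ (q, false) = ∏ q ∈ Q, (((sgz q : ℤ) : RR) * (q : RR)) :=
    Finset.prod_congr rfl fun q hq => by rw [pfx_Q hq, sg_coe]
  have e2 : ∏ p ∈ P, (pfx Q ϖ (p, false) * pfx Q ϖ (p, true)) =
      ∏ p ∈ P, (((sgz p : ℤ) : RR) * (p : RR)) := by
    refine Finset.prod_congr rfl fun p hp => ?_
    rw [pfx_f h hp, pfx_t h hp, sg_coe]
    have h3 := mul_cj (ϖ p)
    rw [(h.cho p hp).1] at h3
    push_cast at h3
    linear_combination ((sgz p : ℤ) : RR) * h3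
  rw [e1, e2, ← Finset.prod_union h.dis, Finset.prod_mul_distrib]
  have e3 : ∏ i ∈ Q ∪ P, ((sgz i : ℤ) : RR) = ((∏ q ∈ Q ∪ P, sgz q : ℤ) : RR) := by
    push_cast
    rfl
  rw [e3, h1]
  push_cast
  ring

end

variable {Q S : Finset ℕ} {ϖ : ℕ → RR}

/-- the residue class of a class modulo `𝔭³`, with the label -/
lemma c5_g' (h : Dt Q S ϖ) {T : Finset (ℕ × Bool)} (hT : T ⊆ ix Q S) (s e y z : Bool) :
    ∃ c : ZMod 8, C5 c (b2 e + b2 z + ∑ i ∈ T, kl (pfx Q ϖ) i) ∧
      r8 (gg s e y z * ∏ i ∈ T, pfx Q ϖ i) = (if s then -1 else 1) * (if y then 6 else 1) * c := by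
  refine ⟨r8 (if e then -fR else 1) * r8 (if z then aR - 1 else 1) * r8 (∏ i ∈ T, pfx Q ϖ i),
    ?_, ?_⟩
  · refine C5.mul (C5.mul ?_ ?_) (C5.prod T fun i hi => c5_pfx h (hT hi))
    · cases e
      · simp only [Bool.false_eq_true, if_false, map_one]
        decide
      · have e1 : r8 (-fR) = 5 := by
          unfold fR
          rw [map_neg, map_sub, map_mul, r8_aR, map_ofNat, map_one]
          decide
        simp only [if_true, e1]
        decide
    · cases z
      · simp only [Bool.false_eq_true, if_false, map_one]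
        decide
      · have e1 : r8 (aR - 1) = 5 := by
          rw [map_sub, r8_aR, map_one]
          decide
        simp only [if_true, e1]
        decide
  · unfold gg
    rw [map_mul, map_mul, map_mul, map_mul]
    cases s <;> cases y <;> simp [r8_aR] <;> ring

lemma ar3 : ∀ (s y : Bool) (c d : ZMod 8) (l L : ZMod 2), C5 c l →
    ((d = 3 ∧ L = 0) ∨ (d = 7 ∧ L = 1)) →
    ((if s then -1 else 1) * (if y then 6 else 1) * c = 1 ∨
      (if s then -1 else 1) * (if y then 6 else 1) * c = 4 ∨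
      (if s then -1 else 1) * (if y then 6 else 1) * c * (5 * d) = 1 ∨
      (if s then -1 else 1) * (if y then 6 else 1) * c * (5 * d) = 4) →
        y = false ∧ l = L * b2 s := by
  intro s y c d l L hc hd
  unfold C5 at hc
  rcases hc with ⟨rfl, rfl⟩ | ⟨rfl, rfl⟩ <;> rcases hd with ⟨rfl, rfl⟩ | ⟨rfl, rfl⟩ <;>
    revert s y <;> decide

lemma b2_one {s : Bool} (h : b2 s = 1) : s = true := by
  cases s
  · exact absurd h (by decide)
  · rfl

lemma b2_zero {s : Bool} (h : b2 s = 0) : s = false := by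
  cases s
  · rfl
  · exact absurd h (by decide)

theorem t_A3 : Pool.Agent.L0h75.H1.S_A3 := by
  classical
  intro r2 hFAC hEQJ hEQ7 _ Q S ϖ h hD hns δ hsel
  set D := ∏ p ∈ Q ∪ S, p with hDd
  have hprod : -1 * ∏ i ∈ ix Q S, pfx Q ϖ i = (D : RR) := prod_pfx3 h (by rw [← hDd]; omega)
  have hK : Kap (-1 : RR) 1 := Or.inr ⟨rfl, Or.inl rfl⟩
  have hm : -fR * (D : RR) = mK Q S ϖ (-1) := by
    unfold mK
    rw [hprod]
  have hmg : mK Q S ϖ (-1) = gg true true false false * ∏ i ∈ ix Q S, pfx Q ϖ i := by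
    unfold mK gg
    simp
  have hrD : (r8 (D : RR) = 3 ∧ (if D % 8 = 7 then (1 : ZMod 2) else 0) = 0) ∨
      (r8 (D : RR) = 7 ∧ (if D % 8 = 7 then (1 : ZMod 2) else 0) = 1) := by
    have h8 : D % 8 = 3 ∨ D % 8 = 7 := by omega
    rw [map_natCast, ← ZMod.natCast_mod]
    rcases h8 with h8 | h8
    · left
      rw [h8]
      exact ⟨rfl, if_neg (by norm_num)⟩
    · right
      rw [h8]
      exact ⟨rfl, if_pos rfl⟩
  have hrm : r8 (mK Q S ϖ (-1)) = 5 * r8 (D : RR) := by
    rw [← hm, map_mul]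
    have e1 : r8 (-fR) = 5 := by
      unfold fR
      rw [map_neg, map_sub, map_mul, r8_aR, map_ofNat, map_one]
      decide
    rw [e1]
  rw [hm] at hsel ⊢
  obtain ⟨s, e, y, z, T, hT, hδ⟩ := hFAC Q S ϖ h (-1) δ 1 hK hsel.odd
  have hodd := hsel.odd
  rw [hδ] at hodd
  have hJ := hEQJ r2 Q S ϖ h (-1) 1 hK s e y z T hT hodd
  have h7 := hEQ7 Q S ϖ h (-1) 1 hK s e y z T hT hodd
  set L : ZMod 2 := if D % 8 = 7 then 1 else 0 with hL
  -- the place `aR`
  have hsy : y = false ∧ b2 e + b2 z + ∑ i ∈ T, kl (pfx Q ϖ) i = L * b2 s := by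
    obtain ⟨c, hc, hr⟩ := c5_g' h hT s e y z
    rw [← hδ] at hr
    refine ar3 s y c (r8 (D : RR)) _ L hc hrD ?_
    rw [← hr]
    rcases hsel.st with h1 | h1
    · rcases lsq_r8 h1 with h2 | h2
      · exact Or.inl h2
      · exact Or.inr (Or.inl h2)
    · have h2 := lsq_r8 h1
      rw [map_mul, hrm] at h2
      exact Or.inr (Or.inr h2)
  obtain ⟨rfl, h1⟩ := hsy
  -- the sums
  have hn : ∑ i ∈ ix Q S, kn (pfx Q ϖ) i = 0 := by
    have h2 := h.ntsum
    rw [Finset.sum_congr rfl fun i hi => by rw [h.pf hi]] at h2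
    exact h2
  have hw : 1 + ∑ i ∈ ix Q S, kb (pfx Q ϖ) i = L := by
    have h2 := (sum_lam h).2
    rw [← hDd] at h2
    have h3 : ∑ i ∈ ix Q S, kb (pfx Q ϖ) i = u8 D := h2
    rw [h3, hL]
    unfold u8
    by_cases h8 : D % 8 = 7
    · rw [if_pos (Or.inr h8), if_pos h8, add_zero]
    · rw [if_neg (by omega), if_neg h8]
      decide
  have hb : b2 false = 0 := rfl
  have key := lin3 (I := ix Q S) (n := kn (pfx Q ϖ)) (l := kl (pfx Q ϖ)) (lb := kb (pfx Q ϖ))
    (m7 := k7 (pfx Q ϖ)) (p := fun i => k7 (pfx Q ϖ) i + kn (pfx Q ϖ) i)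
    (m := mr (pfx Q ϖ)) hn (fun i _ => rfl) (Pool.Agent.L0h61.EV.Dt.recp h) hw hns
    (s := b2 s) (z := b2 z) (e := b2 e) (x := fun i => if i ∈ T then 1 else 0) ?_
    (fun j hj => ?_) ?_
  · rcases key with ⟨k1, k2, k3, k4⟩ | ⟨k1, k2, k3, k4⟩
    · left
      have hT0 : T = ∅ := by
        rw [Finset.eq_empty_iff_forall_notMem]
        intro i hi
        have h5 := k4 i (hT hi)
        rw [if_pos hi] at h5
        exact absurd h5 (by decide)
      rw [hδ, b2_zero k1, b2_zero k2, b2_zero k3, hT0]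
      unfold gg
      simp
    · right
      have hT1 : T = ix Q S := by
        refine Finset.Subset.antisymm hT fun i hi => ?_
        by_contra hc
        have h5 := k4 i hi
        rw [if_neg hc] at h5
        exact absurd h5 (by decide)
      rw [hδ, hmg, b2_one k1, b2_zero k2, b2_one k3, hT1]
  · -- the place `aR`
    rw [sum_ind hT]
    linear_combination h1
  · -- the equations at the odd places
    have h5 := hJ j hj
    have h6 : lg (sy (pfx Q ϖ j) (-1)) = kn (pfx Q ϖ) j := rfl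
    rw [h6, hb] at h5
    linear_combination h5
  · -- the equation at `√-7`
    have h6 := sum_ind hT (fun i => k7 (pfx Q ϖ) i + kn (pfx Q ϖ) i)
    linear_combination h7 + h6

end Pool.Agent.L0h26.H1
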